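import Mathlib
import Pool.Agent.X197.ChebG

namespace Pool.Agent.Results.MP_65e1c6_gt.NonAdditive

open Topology

/-- A flat Chebyshev metric with continuous angle which is not locally additive. -/
theorem result : ∃ ω : ℝ × ℝ → ℝ, Continuous ω ∧ (∀ q, |Real.sin (ω q)| < 1) ∧
    (∃ x y : ℝ × ℝ → ℝ, ContDiff ℝ 1 x ∧ ContDiff ℝ 1 y ∧ ∀ q,
      (fderiv ℝ x q (1, 0)) ^ 2 + (fderiv ℝ y q (1, 0)) ^ 2 = 1 ∧
      (fderiv ℝ x q (0, 1)) ^ 2 + (fderiv ℝ y q (0, 1)) ^ 2 = 1 ∧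
      fderiv ℝ x q (1, 0) * fderiv ℝ x q (0, 1) + fderiv ℝ y q (1, 0) * fderiv ℝ y q (0, 1)
        = Real.sin (ω q)) ∧
    ∃ p, ¬ ∃ U ∈ 𝓝 p, ∃ g h : ℝ → ℝ, ∀ q ∈ U, ω q = g q.1 + h q.2 :=
  Pool.Agent.X197.Cheb.main

end Pool.Agent.Results.MP_65e1c6_gt.NonAdditive
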